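import Mathlib

/-!
The Grassmann embedding of the dual polar space of a parabolic quadric of rank 2 over a field of
characteristic different from 2 with a nonzero derivation is not relatively universal among
veronesean embeddings.
-/

open Module

namespace Pool.Agent.Results.MP_4e2054_co.NotUniversal

section defs

variable {F : Type} [Field F] {V : Type} [AddCommGroup V] [Module F V]

/-- Totally singular subspaces. -/
def TotSing (q : QuadraticForm F V) (Z : Submodule F V) : Prop := ∀ x ∈ Z, q x = 0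

/-- The points of the dual polar space: the totally singular subspaces of dimension `n`. -/
abbrev Pt (q : QuadraticForm F V) (n : ℕ) : Type :=
  {Z : Submodule F V // finrank F Z = n ∧ TotSing q Z}

/-- The line `l_X`: all points `Z` with `X ⊆ Z ⊆ X^⊥`. -/
def line (q : QuadraticForm F V) (n : ℕ) (X : Submodule F V) : Set (Pt q n) :=
  {Z | X ≤ Z.1 ∧ ∀ z ∈ Z.1, ∀ x ∈ X, QuadraticMap.polar q x z = 0}

/-- A form has Witt index `n`: `n` is the largest dimension of a totally singular subspace. -/
def HasWittIndex (q : QuadraticForm F V) (n : ℕ) : Prop :=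
  (∃ Z : Submodule F V, finrank F Z = n ∧ TotSing q Z) ∧
    ∀ Z : Submodule F V, TotSing q Z → finrank F Z ≤ n

/-- A set of 1-spaces of `W` is a non-singular conic if it is nonempty and it consists, for some
plane of `PG(W)` given by an injective linear map `j` from a 3-dimensional space `P` to `W`, of
the zeros of a non-degenerate quadratic form `Q` on `P`. -/
def IsConic {W : Type} [AddCommGroup W] [Module F W] (C : Set (Submodule F W)) : Prop :=
  C.Nonempty ∧ ∃ (P : Type) (_ : AddCommGroup P) (_ : Module F P) (j : P →ₗ[F] W)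
    (Q : QuadraticForm F P), finrank F P = 3 ∧
    Function.Injective j ∧ (QuadraticMap.polarBilin Q).Nondegenerate ∧
      C = {L | ∃ x, x ≠ 0 ∧ Q x = 0 ∧ L = Submodule.span F {j x}}

/-- Veronesean embeddings of the dual polar space of `(V, q)` in the vector space `W`. -/
structure VeroneseanEmbedding (q : QuadraticForm F V) (n : ℕ) (W : Type) [AddCommGroup W]
    [Module F W] where
  /-- the map on points -/
  ε : Pt q n → Submodule F W
  /-- the images are points of `PG(W)` -/
  finrank_eq : ∀ p, finrank F (ε p) = 1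
  /-- injectivity -/
  inj : Function.Injective ε
  /-- lines go onto non-singular conics -/
  conic : ∀ X : Submodule F V, finrank F X + 1 = n → TotSing q X → IsConic (ε '' line q n X)
  /-- the image of a point off a line is not in the span of the image of the line -/
  proper : ∀ X : Submodule F V, finrank F X + 1 = n → TotSing q X → ∀ p, p ∉ line q n X →
    ε p ⊓ (⨆ z ∈ line q n X, ε z) = ⊥
  /-- the image spans `W` -/
  spans : ⨆ p, ε p = ⊤

/-- A veronesean embedding is relatively universal if it is not a proper quotient of any other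
veronesean embedding: every morphism to it (a semilinear map `f` with `e = f ∘ e'` on points) is
bijective. -/
def RelativelyUniversal {q : QuadraticForm F V} {n : ℕ} {W : Type} [AddCommGroup W]
    [Module F W] (e : VeroneseanEmbedding q n W) : Prop :=
  ∀ (W' : Type) [AddCommGroup W'] [Module F W'] (e' : VeroneseanEmbedding q n W')
    (σ : F ≃+* F) (f : W' →ₛₗ[(σ : F →+* F)] W),
      (∀ p, f '' (e'.ε p : Set W') = (e.ε p : Set W)) → Function.Bijective f

variable (F V) in
/-- The exterior power `⋀ⁿ V`. -/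
def Ext (n : ℕ) : Type := ⋀[F]^n V

noncomputable instance (n : ℕ) : AddCommGroup (Ext F V n) :=
  inferInstanceAs (AddCommGroup (⋀[F]^n V))

noncomputable instance (n : ℕ) : Module F (Ext F V n) := inferInstanceAs (Module F (⋀[F]^n V))

variable (F V) in
/-- The canonical alternating map `(v₁, …, vₙ) ↦ v₁ ∧ … ∧ vₙ`. -/
noncomputable def wedge (n : ℕ) : V [⋀^Fin n]→ₗ[F] Ext F V n := exteriorPower.ιMulti F n

/-- The Grassmann map: `⟨v₁, …, vₙ⟩ ↦ ⟨v₁ ∧ … ∧ vₙ⟩`. -/
noncomputable def grassmann (q : QuadraticForm F V) (n : ℕ) (Z : Pt q n) : Submodule F (Ext F V n) :=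
  Submodule.span F {x | ∃ v : Fin n → V, (∀ i, v i ∈ Z.1) ∧ x = wedge F V n v}

end defs

/-! ### The exterior square -/

section wedge

variable {F : Type} [Field F]

/-- The wedge product of two vectors. -/
noncomputable def wd (u w : Fin 5 → F) : ⋀[F]^2 (Fin 5 → F) := exteriorPower.ιMulti F 2 ![u, w]

omit [Field F] in
lemma upd0 (u w x : Fin 5 → F) : Function.update ![u, w] 0 x = ![x, w] := by
  ext i; fin_cases i <;> rfl

omit [Field F] in
lemma upd1 (u w x : Fin 5 → F) : Function.update ![u, w] 1 x = ![u, x] := by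
  ext i; fin_cases i <;> rfl

lemma wd_add_left (u u' w : Fin 5 → F) : wd (u + u') w = wd u w + wd u' w := by
  have := (exteriorPower.ιMulti F 2 (M := Fin 5 → F)).map_update_add ![u, w] 0 u u'
  rwa [upd0, upd0, upd0] at this

lemma wd_smul_left (a : F) (u w : Fin 5 → F) : wd (a • u) w = a • wd u w := by
  have := (exteriorPower.ιMulti F 2 (M := Fin 5 → F)).map_update_smul ![u, w] 0 a u
  rwa [upd0, upd0] at this

lemma wd_add_right (u w w' : Fin 5 → F) : wd u (w + w') = wd u w + wd u w' := by
  have := (exteriorPower.ιMulti F 2 (M := Fin 5 → F)).map_update_add ![u, w] 1 w w'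
  rwa [upd1, upd1, upd1] at this

lemma wd_smul_right (a : F) (u w : Fin 5 → F) : wd u (a • w) = a • wd u w := by
  have := (exteriorPower.ιMulti F 2 (M := Fin 5 → F)).map_update_smul ![u, w] 1 a w
  rwa [upd1, upd1] at this

lemma wd_self (u : Fin 5 → F) : wd u u = 0 := by
  apply (exteriorPower.ιMulti F 2 (M := Fin 5 → F)).map_eq_zero_of_eq ![u, u] (i := 0) (j := 1)
  · rfl
  · decide

lemma wd_swap (u w : Fin 5 → F) : wd w u = - wd u w := by
  have h := wd_self (u + w)
  rw [wd_add_left, wd_add_right, wd_add_right, wd_self, wd_self] at h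
  rw [eq_neg_iff_add_eq_zero]
  simpa [add_comm] using h

/-- The pair of coordinates `i, j`. -/
def pr (i j : Fin 5) : (Fin 5 → F) →ₗ[F] (Fin 2 → F) :=
  LinearMap.pi ![LinearMap.proj i, LinearMap.proj j]

/-- Pluecker coordinates. -/
noncomputable def pl (i j : Fin 5) : ⋀[F]^2 (Fin 5 → F) →ₗ[F] F :=
  exteriorPower.alternatingMapLinearEquiv
    ((Matrix.detRowAlternating (n := Fin 2) (R := F)).compLinearMap (pr i j))

lemma pl_wd (i j : Fin 5) (u w : Fin 5 → F) : pl i j (wd u w) = u i * w j - u j * w i := by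
  rw [pl, wd, exteriorPower.alternatingMapLinearEquiv_apply_ιMulti]
  rw [AlternatingMap.compLinearMap_apply]
  change Matrix.det (Matrix.of (fun k => pr i j (![u, w] k))) = _
  rw [Matrix.det_fin_two]
  simp [pr]

/-- If a multiple of `v₁ ∧ v₂` equals a nonzero `u ∧ w` then `u` is in the span of `v₁, v₂`. -/
lemma mem_span_of_pl {u w v₁ v₂ : Fin 5 → F} {c : F}
    (hpl : ∀ k l, c * (v₁ k * v₂ l - v₁ l * v₂ k) = u k * w l - u l * w k)
    (hne : ∃ i j, u i * w j - u j * w i ≠ 0) : u ∈ Submodule.span F {v₁, v₂} := by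
  obtain ⟨i, j, hij⟩ := hne
  rw [Submodule.mem_span_pair]
  refine ⟨c * (u i * v₂ j - u j * v₂ i) / (u i * w j - u j * w i),
    -(c * (u i * v₁ j - u j * v₁ i)) / (u i * w j - u j * w i), ?_⟩
  ext k
  simp only [Pi.add_apply, Pi.smul_apply, smul_eq_mul]
  rw [div_mul_eq_mul_div, div_mul_eq_mul_div, ← add_div, div_eq_iff hij]
  have h1 := hpl k i
  have h2 := hpl k j
  linear_combination (u i) * h2 - (u j) * h1

lemma pl_of_wd {u w v₁ v₂ : Fin 5 → F} {c : F} (h : c • wd v₁ v₂ = wd u w) (k l : Fin 5) :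
    c * (v₁ k * v₂ l - v₁ l * v₂ k) = u k * w l - u l * w k := by
  have := congrArg (pl k l) h
  rw [map_smul, pl_wd, pl_wd, smul_eq_mul] at this
  exact this

omit [Field F] in
lemma range_pair (u w : Fin 5 → F) : Set.range ![u, w] = {u, w} := by
  ext x
  simp only [Set.mem_range, Fin.exists_fin_two, Set.mem_insert_iff, Set.mem_singleton_iff]
  constructor
  · rintro (h | h)
    · exact Or.inl h.symm
    · exact Or.inr h.symm
  · rintro (h | h)
    · exact Or.inl h.symm
    · exact Or.inr h.symm

end wedge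

/-! ### The quadratic form -/

section form

variable (F : Type) [Field F]

/-- The form `x₀² + x₁ x₂ + x₃ x₄`. -/
def q0 : QuadraticForm F (Fin 5 → F) :=
  QuadraticMap.linMulLin (LinearMap.proj 0) (LinearMap.proj 0) +
    QuadraticMap.linMulLin (LinearMap.proj 1) (LinearMap.proj 2) +
    QuadraticMap.linMulLin (LinearMap.proj 3) (LinearMap.proj 4)

variable {F}

/-- Its polar form. -/
def b (u w : Fin 5 → F) : F := 2 * (u 0 * w 0) + u 1 * w 2 + u 2 * w 1 + u 3 * w 4 + u 4 * w 3

lemma q0_apply (u : Fin 5 → F) : q0 F u = u 0 * u 0 + u 1 * u 2 + u 3 * u 4 := by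
  simp [q0]

lemma polar_eq (u w : Fin 5 → F) : QuadraticMap.polar (q0 F) u w = b u w := by
  simp only [QuadraticMap.polar, q0_apply, b, Pi.add_apply]
  ring

lemma b_comm (u w : Fin 5 → F) : b u w = b w u := by
  simp only [b]; ring

lemma nondeg (h2 : (2 : F) ≠ 0) : (QuadraticMap.polarBilin (q0 F)).Nondegenerate := by
  have key : ∀ u : Fin 5 → F, (∀ w, b u w = 0) → u = 0 := by
    intro u h
    have h0 := h ![1, 0, 0, 0, 0]
    have h1 := h ![0, 1, 0, 0, 0]
    have h2' := h ![0, 0, 1, 0, 0]
    have h3 := h ![0, 0, 0, 1, 0]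
    have h4 := h ![0, 0, 0, 0, 1]
    simp [b] at h0 h1 h2' h3 h4
    ext i
    fin_cases i
    · simpa using h0.resolve_left h2
    · simpa using h2'
    · simpa using h1
    · simpa using h4
    · simpa using h3
  constructor
  · intro u hu
    apply key
    intro w
    rw [← polar_eq]
    exact hu w
  · intro u hu
    apply key
    intro w
    rw [b_comm, ← polar_eq]
    exact hu w

lemma totsing_le (h2 : (2 : F) ≠ 0) (Z : Submodule F (Fin 5 → F)) (hZ : TotSing (q0 F) Z) :
    finrank F Z ≤ 2 := by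
  have h1 := LinearMap.BilinForm.finrank_orthogonal (nondeg h2) Z
  have h3 : Z ≤ LinearMap.BilinForm.orthogonal (QuadraticMap.polarBilin (q0 F)) Z := by
    intro z hz
    rw [LinearMap.BilinForm.mem_orthogonal_iff]
    intro y hy
    change QuadraticMap.polar (q0 F) y z = 0
    rw [QuadraticMap.polar, hZ _ (Z.add_mem hy hz), hZ y hy, hZ z hz]
    ring
  have h4 := Submodule.finrank_mono h3
  rw [h1, Module.finrank_fin_fun] at h4
  omega

lemma b_zero {Z : Submodule F (Fin 5 → F)} (hZ : TotSing (q0 F) Z) {u w : Fin 5 → F}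
    (hu : u ∈ Z) (hw : w ∈ Z) : b u w = 0 := by
  rw [← polar_eq, QuadraticMap.polar, hZ _ (Z.add_mem hu hw), hZ u hu, hZ w hw]
  ring

lemma totsing_span {u w : Fin 5 → F} (hu : q0 F u = 0) (hw : q0 F w = 0) (h : b u w = 0) :
    TotSing (q0 F) (Submodule.span F {u, w}) := by
  intro x hx
  obtain ⟨c, d, rfl⟩ := Submodule.mem_span_pair.mp hx
  have : q0 F (c • u + d • w) = c * c * q0 F u + d * d * q0 F w + c * d * b u w := by
    simp only [q0_apply, b, Pi.add_apply, Pi.smul_apply, smul_eq_mul]
    ring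
  rw [this, hu, hw, h]
  ring

/-- A basis of a point. -/
lemma exists_basis (Z : Pt (q0 F) 2) : ∃ u w : Fin 5 → F, Z.1 = Submodule.span F {u, w} ∧
    LinearIndependent F ![u, w] := by
  obtain ⟨Z, hZ, -⟩ := Z
  let B := Module.finBasisOfFinrankEq F Z hZ
  refine ⟨B 0, B 1, ?_, ?_⟩
  · have h1 := B.span_eq
    have h2 : Submodule.map Z.subtype (Submodule.span F (Set.range B)) = Z := by
      rw [h1]; simp
    rw [Submodule.map_span] at h2
    symm
    refine Eq.trans ?_ h2
    congr 1
    ext x
    simp only [Set.mem_insert_iff, Set.mem_singleton_iff, Set.mem_image, Set.mem_range]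
    constructor
    · rintro (h | h)
      · exact ⟨_, ⟨0, rfl⟩, h.symm⟩
      · exact ⟨_, ⟨1, rfl⟩, h.symm⟩
    · rintro ⟨y, ⟨i, rfl⟩, rfl⟩
      fin_cases i
      · exact Or.inl rfl
      · exact Or.inr rfl
  · have h1 := B.linearIndependent.map' Z.subtype (Submodule.ker_subtype Z)
    have h2 : (Z.subtype ∘ B) = ![(B 0 : Fin 5 → F), (B 1 : Fin 5 → F)] := by
      ext i; fin_cases i <;> rfl
    rw [h2] at h1
    exact h1

/-- Independent vectors have a nonzero Pluecker coordinate. -/
lemma exists_ne {u w : Fin 5 → F} (h : LinearIndependent F ![u, w]) :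
    ∃ i j, u i * w j - u j * w i ≠ 0 := by
  by_contra hcon
  push Not at hcon
  rw [LinearIndependent.pair_iff] at h
  have hu : u ≠ 0 := by
    intro hu
    have := h 1 0 (by rw [hu]; simp)
    exact one_ne_zero this.1
  obtain ⟨i, hi⟩ := Function.ne_iff.mp hu
  have := h (w i) (-(u i)) (by
    ext j
    simp only [Pi.add_apply, Pi.smul_apply, smul_eq_mul, Pi.zero_apply]
    linear_combination -(hcon i j))
  exact hi (by simpa using this.2)

end form

/-! ### A general construction of veronesean embeddings -/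

section build

variable {F : Type} [Field F]

/-- Data for a veronesean embedding lying above the Grassmann embedding. -/
structure Dat (F : Type) [Field F] (W : Type) [AddCommGroup W] [Module F W] where
  /-- the pair map -/
  ω : (Fin 5 → F) → (Fin 5 → F) → W
  /-- the projection -/
  π : W →ₗ[F] ⋀[F]^2 (Fin 5 → F)
  /-- the linear maps on the lines -/
  T : (Fin 5 → F) → ((Fin 5 → F) →ₗ[F] W)
  hπ : ∀ u w, q0 F u = 0 → q0 F w = 0 → b u w = 0 → π (ω u w) = wd u w
  hω : ∀ u w, q0 F u = 0 → q0 F w = 0 → b u w = 0 → ∀ a a' c c' : F,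
    ω (a • u + a' • w) (c • u + c' • w) = (a * c' - a' * c) • ω u w
  hT : ∀ u w, q0 F u = 0 → b u w = 0 → ω u w = T u w
  hTπ : ∀ u w, π (T u w) = wd u w
  hspan : Submodule.span F {x | ∃ u w, q0 F u = 0 ∧ q0 F w = 0 ∧ b u w = 0 ∧ x = ω u w} = ⊤

variable {W : Type} [AddCommGroup W] [Module F W] (D : Dat F W)

/-- The map on points. -/
def Dat.img (Z : Pt (q0 F) 2) : Submodule F W :=
  Submodule.span F {x | ∃ u ∈ Z.1, ∃ w ∈ Z.1, x = D.ω u w}

lemma mem_pair_left (u w : Fin 5 → F) : u ∈ Submodule.span F {u, w} :=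
  Submodule.subset_span (by simp)

lemma mem_pair_right (u w : Fin 5 → F) : w ∈ Submodule.span F {u, w} :=
  Submodule.subset_span (by simp)

lemma pt_left {Z : Pt (q0 F) 2} {u w : Fin 5 → F} (h : Z.1 = Submodule.span F {u, w}) :
    u ∈ Z.1 := h ▸ mem_pair_left u w

lemma pt_right {Z : Pt (q0 F) 2} {u w : Fin 5 → F} (h : Z.1 = Submodule.span F {u, w}) :
    w ∈ Z.1 := h ▸ mem_pair_right u w

lemma img_eq {Z : Pt (q0 F) 2} {u w : Fin 5 → F} (h : Z.1 = Submodule.span F {u, w}) :
    D.img Z = Submodule.span F {D.ω u w} := by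
  have hu := pt_left h
  have hw := pt_right h
  have hqu := Z.2.2 u hu
  have hqw := Z.2.2 w hw
  have hb := b_zero Z.2.2 hu hw
  apply le_antisymm
  · apply Submodule.span_le.mpr
    rintro x ⟨u', hu', w', hw', rfl⟩
    rw [h] at hu' hw'
    obtain ⟨a, a', rfl⟩ := Submodule.mem_span_pair.mp hu'
    obtain ⟨c, c', rfl⟩ := Submodule.mem_span_pair.mp hw'
    rw [D.hω u w hqu hqw hb]
    exact Submodule.smul_mem _ _ (Submodule.mem_span_singleton_self _)
  · apply Submodule.span_le.mpr
    intro x hx
    rw [Set.mem_singleton_iff.mp hx]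
    exact Submodule.subset_span ⟨u, hu, w, hw, rfl⟩

lemma ω_ne {u w : Fin 5 → F} (hu : q0 F u = 0) (hw : q0 F w = 0) (hb : b u w = 0)
    (h : LinearIndependent F ![u, w]) : D.ω u w ≠ 0 := by
  intro h0
  obtain ⟨i, j, hij⟩ := exists_ne h
  have := D.hπ u w hu hw hb
  rw [h0, map_zero] at this
  apply hij
  rw [← pl_wd, ← this, map_zero]

lemma finrank_img (Z : Pt (q0 F) 2) : finrank F (D.img Z) = 1 := by
  obtain ⟨u, w, h, hi⟩ := exists_basis Z
  rw [img_eq D h]
  exact finrank_span_singleton (ω_ne D (Z.2.2 u (pt_left h)) (Z.2.2 w (pt_right h))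
    (b_zero Z.2.2 (pt_left h) (pt_right h)) hi)

lemma img_inj : Function.Injective D.img := by
  intro Z Z' hZZ
  obtain ⟨u, w, h, hi⟩ := exists_basis Z
  obtain ⟨u', w', h', -⟩ := exists_basis Z'
  rw [img_eq D h, img_eq D h'] at hZZ
  have h1 : D.ω u w ∈ Submodule.span F {D.ω u' w'} := by
    rw [← hZZ]; exact Submodule.mem_span_singleton_self _
  obtain ⟨c, hc⟩ := Submodule.mem_span_singleton.mp h1
  have h2 := congrArg D.π hc
  rw [map_smul, D.hπ u w (Z.2.2 u (pt_left h)) (Z.2.2 w (pt_right h))
    (b_zero Z.2.2 (pt_left h) (pt_right h)), D.hπ u' w' (Z'.2.2 u' (pt_left h'))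
    (Z'.2.2 w' (pt_right h')) (b_zero Z'.2.2 (pt_left h') (pt_right h'))] at h2
  obtain ⟨i, j, hij⟩ := exists_ne hi
  have hu := mem_span_of_pl (pl_of_wd h2) ⟨i, j, hij⟩
  have hw : w ∈ Submodule.span F {u', w'} := by
    apply mem_span_of_pl (c := -c) (w := u)
    · intro k l
      linear_combination -(pl_of_wd h2 k l)
    · exact ⟨j, i, fun h => hij (by linear_combination h)⟩
  apply Subtype.ext
  apply Submodule.eq_of_le_of_finrank_eq
  · rw [h, h']
    apply Submodule.span_le.mpr
    intro x hx
    rcases hx with hx | hx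
    · rw [hx]; exact hu
    · rw [Set.mem_singleton_iff.mp hx]; exact hw
  · rw [Z.2.1, Z'.2.1]

lemma exists_gen {X : Submodule F (Fin 5 → F)} (hX : finrank F X + 1 = 2)
    (hts : TotSing (q0 F) X) : ∃ u : Fin 5 → F, u ≠ 0 ∧ q0 F u = 0 ∧
      ∀ Z : Pt (q0 F) 2, Z ∈ line (q0 F) 2 X ↔ u ∈ Z.1 := by
  have h1 : finrank F X = 1 := by omega
  obtain ⟨v, hv, hspan⟩ := finrank_eq_one_iff'.mp h1
  refine ⟨v.1, fun h => hv (Subtype.ext h), hts v.1 v.2, ?_⟩
  intro Z
  constructor
  · intro hZ
    exact hZ.1 v.2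
  · intro hZ
    have hle : X ≤ Z.1 := by
      intro x hx
      obtain ⟨c, hc⟩ := hspan ⟨x, hx⟩
      have : x = c • v.1 := by
        have := congrArg Subtype.val hc
        simpa using this.symm
      rw [this]
      exact Z.1.smul_mem c hZ
    refine ⟨hle, fun z hz x hx => ?_⟩
    rw [polar_eq]
    exact b_zero Z.2.2 (hle hx) hz

/-- A point containing `u` is spanned by `u` and another vector. -/
lemma exists_second (Z : Pt (q0 F) 2) {u : Fin 5 → F} (hu : u ∈ Z.1) (hu0 : u ≠ 0) :
    ∃ w, Z.1 = Submodule.span F {u, w} ∧ w ∉ Submodule.span F {u} := by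
  have h1 : ∃ w ∈ Z.1, w ∉ Submodule.span F {u} := by
    by_contra hcon
    push Not at hcon
    have h2 := Submodule.finrank_mono (show Z.1 ≤ Submodule.span F {u} from hcon)
    rw [Z.2.1, finrank_span_singleton hu0] at h2
    omega
  obtain ⟨w, hw, hw'⟩ := h1
  refine ⟨w, ?_, hw'⟩
  symm
  have hind : LinearIndependent F ![u, w] := by
    rw [LinearIndependent.pair_iff' hu0]
    intro a ha
    exact hw' (Submodule.mem_span_singleton.mpr ⟨a, ha⟩)
  apply Submodule.eq_of_le_of_finrank_eq
  · apply Submodule.span_le.mpr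
    intro x hx
    rcases hx with hx | hx
    · rw [hx]; exact hu
    · rw [Set.mem_singleton_iff.mp hx]; exact hw
  · rw [Z.2.1]
    have := finrank_span_eq_card hind
    rw [range_pair] at this
    simpa using this

/-- The point spanned by two vectors. -/
lemma exists_pt {u w : Fin 5 → F} (hu : q0 F u = 0) (hw : q0 F w = 0) (hb : b u w = 0)
    (hu0 : u ≠ 0) (hw' : w ∉ Submodule.span F {u}) :
    ∃ Z : Pt (q0 F) 2, Z.1 = Submodule.span F {u, w} := by
  have hind : LinearIndependent F ![u, w] := by
    rw [LinearIndependent.pair_iff' hu0]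
    intro a ha
    exact hw' (Submodule.mem_span_singleton.mpr ⟨a, ha⟩)
  refine ⟨⟨Submodule.span F {u, w}, ?_, totsing_span hu hw hb⟩, rfl⟩
  have := finrank_span_eq_card hind
  rw [range_pair] at this
  simpa using this

lemma proper_u {u : Fin 5 → F} (hu0 : u ≠ 0) (hu : q0 F u = 0) (p : Pt (q0 F) 2)
    (hp : u ∉ p.1) (S : Set (Pt (q0 F) 2)) (hS : ∀ Z ∈ S, u ∈ Z.1) :
    D.img p ⊓ (⨆ z ∈ S, D.img z) = ⊥ := by
  rw [eq_bot_iff]
  have hle : (⨆ z ∈ S, D.img z) ≤ LinearMap.range (D.T u) := by
    apply iSup₂_le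
    intro Z hZ
    obtain ⟨w, hw, -⟩ := exists_second Z (hS Z hZ) hu0
    rw [img_eq D hw]
    apply Submodule.span_le.mpr
    intro x hx
    rw [Set.mem_singleton_iff.mp hx, D.hT u w hu (b_zero Z.2.2 (pt_left hw) (pt_right hw))]
    exact ⟨w, rfl⟩
  rintro y ⟨hy1, hy2⟩
  obtain ⟨w, hw⟩ := hle hy2
  obtain ⟨v₁, v₂, hv, hi⟩ := exists_basis p
  rw [SetLike.mem_coe, img_eq D hv] at hy1
  obtain ⟨c, hc⟩ := Submodule.mem_span_singleton.mp hy1
  rw [Submodule.mem_bot]
  by_contra hy0
  have hc0 : c ≠ 0 := by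
    intro h
    rw [h, zero_smul] at hc
    exact hy0 hc.symm
  have h1 : c • wd v₁ v₂ = wd u w := by
    rw [← D.hTπ u w, hw, ← hc, map_smul, D.hπ v₁ v₂ (p.2.2 v₁ (pt_left hv))
      (p.2.2 v₂ (pt_right hv)) (b_zero p.2.2 (pt_left hv) (pt_right hv))]
  obtain ⟨i, j, hij⟩ := exists_ne hi
  apply hp
  rw [hv]
  refine mem_span_of_pl (pl_of_wd h1) ⟨i, j, ?_⟩
  rw [← pl_wd, ← h1, map_smul, pl_wd, smul_eq_mul]
  exact mul_ne_zero hc0 hij

lemma spans_img : ⨆ p, D.img p = ⊤ := by
  rw [eq_top_iff, ← D.hspan]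
  apply Submodule.span_le.mpr
  rintro x ⟨u, w, hu, hw, hb, rfl⟩
  by_cases hu0 : u = 0
  · have := D.hω w w hw hw (by rw [b]; rw [q0_apply] at hw; linear_combination 2 * hw) 0 0 1 0
    simp only [zero_smul, add_zero, one_smul, mul_zero, zero_mul, sub_zero] at this
    rw [hu0, this]
    exact Submodule.zero_mem _
  by_cases hw' : w ∈ Submodule.span F {u}
  · obtain ⟨a, rfl⟩ := Submodule.mem_span_singleton.mp hw'
    have := D.hω u u hu hu (by rw [b]; rw [q0_apply] at hu; linear_combination 2 * hu) 1 0 a 0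
    simp only [zero_smul, add_zero, one_smul, mul_zero, zero_mul, sub_zero] at this
    rw [this]
    exact Submodule.zero_mem _
  obtain ⟨Z, hZ⟩ := exists_pt hu hw hb hu0 hw'
  have h1 : D.img Z ≤ ⨆ p, D.img p := le_iSup _ Z
  apply h1
  rw [img_eq D hZ]
  exact Submodule.mem_span_singleton_self _

/-- A singular vector collinear with `u` and independent of it. -/
lemma exists_sing (u : Fin 5 → F) :
    ∃ w, q0 F w = 0 ∧ b u w = 0 ∧ w ∉ Submodule.span F {u} := by
  by_cases h : u 2 = 0 ∧ u 4 = 0
  · -- `u` is perpendicular to `e₁, e₃`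
    by_cases h1 : (![0, 1, 0, 0, 0] : Fin 5 → F) ∈ Submodule.span F {u}
    · refine ⟨![0, 0, 0, 1, 0], by simp [q0_apply], by simp [b, h.2], ?_⟩
      intro h3
      obtain ⟨c, hc⟩ := Submodule.mem_span_singleton.mp h1
      obtain ⟨d, hd⟩ := Submodule.mem_span_singleton.mp h3
      have c1 := congrFun hc 1
      have c3 := congrFun hc 3
      have d1 := congrFun hd 1
      have d3 := congrFun hd 3
      simp at c1 c3 d1 d3
      rcases c3 with c3 | c3
      · rw [c3] at c1; simp at c1
      · rw [c3] at d3; simp at d3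
    · exact ⟨![0, 1, 0, 0, 0], by simp [q0_apply], by simp [b, h.1], h1⟩
  · -- the vector `u₄ e₁ - u₂ e₃`
    refine ⟨![0, u 4, 0, -(u 2), 0], by simp [q0_apply], by simp [b]; ring, ?_⟩
    intro h3
    obtain ⟨c, hc⟩ := Submodule.mem_span_singleton.mp h3
    have c1 := congrFun hc 1
    have c2 := congrFun hc 2
    have c3 := congrFun hc 3
    have c4 := congrFun hc 4
    simp at c1 c2 c3 c4
    apply h
    by_cases hc0 : c = 0
    · rw [hc0] at c1 c3
      simp at c1 c3
      exact ⟨c3, c1.symm⟩
    · exact ⟨c2.resolve_left hc0, c4.resolve_left hc0⟩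

/-- A parametrised complement of `u` in its perpendicular space. -/
lemma exists_compl (h2 : (2 : F) ≠ 0) {u : Fin 5 → F} (hu0 : u ≠ 0) (hu : q0 F u = 0) :
    ∃ k : (Fin 3 → F) →ₗ[F] (Fin 5 → F), Function.Injective k ∧ (∀ x, b u (k x) = 0) ∧
      (∀ x, k x ∈ Submodule.span F {u} → x = 0) ∧
      (∀ w, b u w = 0 → ∃ (a : F) (x : Fin 3 → F), w = a • u + k x) := by
  set B := QuadraticMap.polarBilin (q0 F) with hB
  have hBapp : ∀ x y, B x y = b x y := fun x y => polar_eq x y
  have hbuu : b u u = 0 := by rw [b]; rw [q0_apply] at hu; linear_combination 2 * hu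
  let P : Submodule F (Fin 5 → F) := LinearMap.BilinForm.orthogonal B (Submodule.span F {u})
  have hP : ∀ w, w ∈ P ↔ b u w = 0 := by
    intro w
    rw [LinearMap.BilinForm.mem_orthogonal_iff]
    constructor
    · intro h
      have := h u (Submodule.mem_span_singleton_self u)
      rwa [hBapp] at this
    · intro h y hy
      obtain ⟨c, rfl⟩ := Submodule.mem_span_singleton.mp hy
      rw [map_smul, LinearMap.smul_apply, hBapp, h, smul_zero]
  have hfP : finrank F P = 4 := by
    have := LinearMap.BilinForm.finrank_orthogonal (nondeg h2) (Submodule.span F {u})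
    rw [Module.finrank_fin_fun, finrank_span_singleton hu0] at this
    exact this
  have hle : Submodule.span F {u} ≤ P := by
    apply Submodule.span_le.mpr
    intro x hx
    rw [Set.mem_singleton_iff.mp hx]
    exact (hP u).mpr hbuu
  obtain ⟨C, hC⟩ := Submodule.exists_isCompl (Submodule.span F {u})
  have hsup : Submodule.span F {u} ⊔ (C ⊓ P) = P := by
    rw [← sup_inf_assoc_of_le _ hle, hC.sup_eq_top, top_inf_eq]
  have hinf : Submodule.span F {u} ⊓ (C ⊓ P) = ⊥ := by
    rw [← inf_assoc, hC.inf_eq_bot, bot_inf_eq]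
  have hfK : finrank F (C ⊓ P : Submodule F (Fin 5 → F)) = 3 := by
    have := Submodule.finrank_sup_add_finrank_inf_eq (Submodule.span F {u}) (C ⊓ P)
    rw [hsup, hinf, finrank_bot, hfP, finrank_span_singleton hu0] at this
    omega
  let e : (Fin 3 → F) ≃ₗ[F] (C ⊓ P : Submodule F (Fin 5 → F)) :=
    (Module.finBasisOfFinrankEq F _ hfK).equivFun.symm
  refine ⟨(Submodule.subtype _).comp e.toLinearMap, ?_, ?_, ?_, ?_⟩
  · intro x y hxy
    apply e.injective
    exact Subtype.ext hxy
  · intro x
    exact (hP _).mp (e x).2.2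
  · intro x hx
    have h1 : ((e x : (C ⊓ P : Submodule F (Fin 5 → F))) : Fin 5 → F) ∈
        Submodule.span F {u} ⊓ (C ⊓ P) := ⟨hx, (e x).2⟩
    rw [hinf, Submodule.mem_bot] at h1
    have h3 : e x = 0 := Subtype.ext h1
    exact (LinearEquiv.map_eq_zero_iff e).mp h3
  · intro w hw
    have h1 : w ∈ Submodule.span F {u} ⊔ (C ⊓ P) := by
      rw [hsup]; exact (hP w).mpr hw
    obtain ⟨y, hy, z, hz, rfl⟩ := Submodule.mem_sup.mp h1
    obtain ⟨a, rfl⟩ := Submodule.mem_span_singleton.mp hy
    refine ⟨a, e.symm ⟨z, hz⟩, ?_⟩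
    simp

lemma conic_u (h2 : (2 : F) ≠ 0) {u : Fin 5 → F} (hu0 : u ≠ 0) (hu : q0 F u = 0) :
    IsConic (D.img '' {Z | u ∈ Z.1}) := by
  obtain ⟨k, hkinj, hk1, hk2, hk3⟩ := exists_compl h2 hu0 hu
  have hbuu : b u u = 0 := by rw [b]; rw [q0_apply] at hu; linear_combination 2 * hu
  constructor
  · obtain ⟨w, hw, hb, hw'⟩ := exists_sing u
    obtain ⟨Z, hZ⟩ := exists_pt hu hw hb hu0 hw'
    exact ⟨_, Z, pt_left hZ, rfl⟩
  refine ⟨Fin 3 → F, inferInstance, inferInstance, (D.T u).comp k, (q0 F).comp k, by simp,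
    ?_, ?_, ?_⟩
  · rw [← LinearMap.ker_eq_bot, LinearMap.ker_eq_bot']
    intro x hx
    apply hk2
    by_contra hcon
    have hind : LinearIndependent F ![u, k x] := by
      rw [LinearIndependent.pair_iff' hu0]
      intro a ha
      exact hcon (Submodule.mem_span_singleton.mpr ⟨a, ha⟩)
    obtain ⟨i, j, hij⟩ := exists_ne hind
    apply hij
    rw [← pl_wd, ← D.hTπ]
    rw [LinearMap.comp_apply] at hx
    rw [hx, map_zero, map_zero]
  · have key : ∀ x, (∀ y, b (k x) (k y) = 0) → x = 0 := by
      intro x hx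
      apply hk2
      -- `k x` is perpendicular to `u^⊥`
      have h1 : k x ∈ LinearMap.BilinForm.orthogonal (QuadraticMap.polarBilin (q0 F))
          (LinearMap.BilinForm.orthogonal (QuadraticMap.polarBilin (q0 F))
            (Submodule.span F {u})) := by
        rw [LinearMap.BilinForm.mem_orthogonal_iff]
        intro w hw
        have hw' : b u w = 0 := by
          rw [LinearMap.BilinForm.mem_orthogonal_iff] at hw
          have := hw u (Submodule.mem_span_singleton_self u)
          rw [← polar_eq]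
          exact this
        obtain ⟨a, y, rfl⟩ := hk3 w hw'
        change QuadraticMap.polar (q0 F) _ _ = 0
        rw [polar_eq]
        have e1 : b (a • u + k y) (k x) = a * b u (k x) + b (k x) (k y) := by
          simp only [b, Pi.add_apply, Pi.smul_apply, smul_eq_mul]
          ring
        rw [e1, hk1, hx y]
        ring
      rw [LinearMap.BilinForm.orthogonal_orthogonal (nondeg h2)] at h1
      · exact h1
      · intro x y hxy
        change QuadraticMap.polar (q0 F) _ _ = 0 at hxy
        change QuadraticMap.polar (q0 F) _ _ = 0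
        rw [QuadraticMap.polar_comm]
        exact hxy
    have hpol : ∀ x y, QuadraticMap.polar ((q0 F).comp k) x y = b (k x) (k y) := by
      intro x y
      rw [← polar_eq]
      simp only [QuadraticMap.polar, QuadraticMap.comp_apply, map_add]
    constructor
    · intro x hx
      apply key
      intro y
      rw [← hpol]
      exact hx y
    · intro x hx
      apply key
      intro y
      rw [b_comm, ← hpol]
      exact hx y
  · ext L
    simp only [Set.mem_image, Set.mem_ofPred_eq]
    constructor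
    · rintro ⟨Z, hZ, rfl⟩
      obtain ⟨w, hw, hw'⟩ := exists_second Z hZ hu0
      obtain ⟨a, x, rfl⟩ := hk3 w (b_zero Z.2.2 (pt_left hw) (pt_right hw))
      have hkx : k x ∈ Z.1 := by
        have h1 := Z.1.sub_mem (pt_right hw) (Z.1.smul_mem a (pt_left hw))
        simpa using h1
      refine ⟨x, ?_, ?_, ?_⟩
      · rintro rfl
        apply hw'
        rw [map_zero, add_zero]
        exact Submodule.smul_mem _ _ (Submodule.mem_span_singleton_self _)
      · exact Z.2.2 _ hkx
      · have hZ' : Z.1 = Submodule.span F {u, k x} := by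
          rw [hw]
          apply le_antisymm
          · apply Submodule.span_le.mpr
            intro y hy
            rcases hy with hy | hy
            · rw [hy]; exact mem_pair_left _ _
            · rw [Set.mem_singleton_iff.mp hy]
              exact Submodule.add_mem _ (Submodule.smul_mem _ _ (mem_pair_left _ _))
                (mem_pair_right _ _)
          · apply Submodule.span_le.mpr
            intro y hy
            rcases hy with hy | hy
            · rw [hy]; exact mem_pair_left _ _
            · rw [Set.mem_singleton_iff.mp hy, ← hw]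
              exact hkx
        rw [img_eq D hZ', D.hT u (k x) hu (hk1 x)]
        rfl
    · rintro ⟨x, hx0, hx, rfl⟩
      obtain ⟨Z, hZ⟩ := exists_pt hu hx (hk1 x) hu0 (fun h => hx0 (hk2 x h))
      refine ⟨Z, pt_left hZ, ?_⟩
      rw [img_eq D hZ, D.hT u (k x) hu (hk1 x)]
      rfl

/-- The veronesean embedding defined by the data. -/
def Dat.emb (h2 : (2 : F) ≠ 0) : VeroneseanEmbedding (q0 F) 2 W where
  ε := D.img
  finrank_eq := finrank_img D
  inj := img_inj D
  conic := by
    intro X hX hts
    obtain ⟨u, hu0, hu, h⟩ := exists_gen hX hts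
    have : line (q0 F) 2 X = {Z | u ∈ Z.1} := by
      ext Z; exact h Z
    rw [this]
    exact conic_u D h2 hu0 hu
  proper := by
    intro X hX hts p hp
    obtain ⟨u, hu0, hu, h⟩ := exists_gen hX hts
    exact proper_u D hu0 hu p (fun h' => hp ((h p).mpr h')) _ (fun Z hZ => (h Z).mp hZ)
  spans := spans_img D

end build

/-! ### The two embeddings -/

section two

variable {F : Type} [Field F]

/-- The unit vectors. -/
def E (i : Fin 5) : Fin 5 → F := Pi.single i 1

variable (D : F →+ F)

/-- The derivation applied to all coordinates. -/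
def dl (u : Fin 5 → F) : Fin 5 → F := fun i => D (u i)

/-- The product space. -/
abbrev WW (F : Type) [Field F] : Type := (⋀[F]^2 (Fin 5 → F)) × F

lemma dl_E (hD1 : D 1 = 0) (i : Fin 5) : dl D (E i) = 0 := by
  ext j
  simp only [dl, E, Pi.single_apply, Pi.zero_apply]
  split_ifs
  · exact hD1
  · exact map_zero D

lemma dl_add (u w : Fin 5 → F) : dl D (u + w) = dl D u + dl D w := by
  ext j
  simp [dl]

lemma dl_sub (u w : Fin 5 → F) : dl D (u - w) = dl D u - dl D w := by
  ext j
  simp [dl]

lemma wd_sub_left (u u' w : Fin 5 → F) : wd (u - u') w = wd u w - wd u' w := by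
  have := wd_add_left (u - u') u' w
  rw [sub_add_cancel] at this
  rw [this, add_sub_cancel_right]

lemma wd_sub_right (u w w' : Fin 5 → F) : wd u (w - w') = wd u w - wd u w' := by
  have := wd_add_right u (w - w') w'
  rw [sub_add_cancel] at this
  rw [this, add_sub_cancel_right]

lemma b_zero_right (u : Fin 5 → F) : b u 0 = 0 := by simp [b]

lemma all_pairs (P : Fin 5 → Fin 5 → Prop) (h0 : ∀ i, P i i) (hs : ∀ i j, P i j → P j i)
    (m10 : P 1 0) (m20 : P 2 0) (m30 : P 3 0) (m40 : P 4 0) (m12 : P 1 2) (m13 : P 1 3)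
    (m14 : P 1 4) (m23 : P 2 3) (m24 : P 2 4) (m34 : P 3 4) : ∀ i j, P i j := by
  have key : ∀ i j : Fin 5, i < j → P i j := by
    intro i j hij
    fin_cases i <;> fin_cases j <;> first
      | (exfalso; revert hij; decide)
      | assumption
      | exact hs _ _ ‹_›
  intro i j
  rcases lt_trichotomy i j with h | h | h
  · exact key i j h
  · rw [h]; exact h0 j
  · exact hs _ _ (key j i h)

/-- A subspace containing the images of all points contains `⋀² V`. -/
lemma contains_wedge (h2 : (2 : F) ≠ 0) (hD1 : D 1 = 0) (S : Submodule F (WW F))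
    (hS : ∀ u w, q0 F u = 0 → q0 F w = 0 → b u w = 0 → ((wd u w, b u (dl D w)) : WW F) ∈ S)
    (x : ⋀[F]^2 (Fin 5 → F)) : ((x, 0) : WW F) ∈ S := by
  have hc : ∀ u w : Fin 5 → F, dl D w = 0 → q0 F u = 0 → q0 F w = 0 → b u w = 0 →
      wd u w ∈ S.comap (LinearMap.inl F _ F) := by
    intro u w h hu hw hb
    have := hS u w hu hw hb
    rw [h, b_zero_right] at this
    exact this
  set S' := S.comap (LinearMap.inl F (⋀[F]^2 (Fin 5 → F)) F) with hS'
  have dE := dl_E D hD1
  have m13 : wd (E 1) (E 3) ∈ S' := hc _ _ (dE 3) (by simp [q0_apply, E]) (by simp [q0_apply, E])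
    (by simp [b, E])
  have m14 : wd (E 1) (E 4) ∈ S' := hc _ _ (dE 4) (by simp [q0_apply, E]) (by simp [q0_apply, E])
    (by simp [b, E])
  have m23 : wd (E 2) (E 3) ∈ S' := hc _ _ (dE 3) (by simp [q0_apply, E]) (by simp [q0_apply, E])
    (by simp [b, E])
  have m24 : wd (E 2) (E 4) ∈ S' := hc _ _ (dE 4) (by simp [q0_apply, E]) (by simp [q0_apply, E])
    (by simp [b, E])
  have sw : ∀ u w : Fin 5 → F, wd u w ∈ S' → wd w u ∈ S' := by
    intro u w h
    rw [wd_swap]
    exact S'.neg_mem h
  have m10 : wd (E 1) (E 0) ∈ S' := by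
    have h := hc (E 1) (E 0 + E 3 - E 4) (by rw [dl_sub, dl_add, dE, dE, dE]; simp)
      (by simp [q0_apply, E]) (by simp [q0_apply, E]) (by simp [b, E])
    rw [wd_sub_right, wd_add_right] at h
    have := S'.add_mem (S'.sub_mem h m13) m14
    convert this using 1
    abel
  have m20 : wd (E 2) (E 0) ∈ S' := by
    have h := hc (E 2) (E 0 + E 3 - E 4) (by rw [dl_sub, dl_add, dE, dE, dE]; simp)
      (by simp [q0_apply, E]) (by simp [q0_apply, E]) (by simp [b, E])
    rw [wd_sub_right, wd_add_right] at h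
    have := S'.add_mem (S'.sub_mem h m23) m24
    convert this using 1
    abel
  have m30 : wd (E 3) (E 0) ∈ S' := by
    have h := hc (E 3) (E 0 + E 1 - E 2) (by rw [dl_sub, dl_add, dE, dE, dE]; simp)
      (by simp [q0_apply, E]) (by simp [q0_apply, E]) (by simp [b, E])
    rw [wd_sub_right, wd_add_right] at h
    have := S'.add_mem (S'.sub_mem h (sw _ _ m13)) (sw _ _ m23)
    convert this using 1
    abel
  have m40 : wd (E 4) (E 0) ∈ S' := by
    have h := hc (E 4) (E 0 + E 1 - E 2) (by rw [dl_sub, dl_add, dE, dE, dE]; simp)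
      (by simp [q0_apply, E]) (by simp [q0_apply, E]) (by simp [b, E])
    rw [wd_sub_right, wd_add_right] at h
    have := S'.add_mem (S'.sub_mem h (sw _ _ m14)) (sw _ _ m24)
    convert this using 1
    abel
  have p1 : wd (E (F := F) 1) (E 2) + wd (E 3) (E 4) ∈ S' := by
    have h := hc (E 1 + E 4) (E 3 - E 2) (by rw [dl_sub, dE, dE]; simp)
      (by simp [q0_apply, E]) (by simp [q0_apply, E]) (by simp [b, E])
    rw [wd_sub_right, wd_add_left, wd_add_left, wd_swap (E 3) (E 4)] at h
    have := S'.neg_mem (S'.add_mem (S'.sub_mem h m13) (sw _ _ m24))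
    convert this using 1
    abel
  have p2 : wd (E (F := F) 1) (E 2) - wd (E 3) (E 4) ∈ S' := by
    have h := hc (E 1 + E 3) (E 4 - E 2) (by rw [dl_sub, dE, dE]; simp)
      (by simp [q0_apply, E]) (by simp [q0_apply, E]) (by simp [b, E])
    rw [wd_sub_right, wd_add_left, wd_add_left] at h
    have := S'.neg_mem (S'.add_mem (S'.sub_mem h m14) (sw _ _ m23))
    convert this using 1
    abel
  have m12 : wd (E 1) (E 2) ∈ S' := by
    have h := S'.smul_mem (2 : F)⁻¹ (S'.add_mem p1 p2)
    have e : (2 : F)⁻¹ • ((wd (E (F := F) 1) (E 2) + wd (E 3) (E 4)) + (wd (E 1) (E 2) - wd (E 3) (E 4)))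
        = wd (E 1) (E 2) := by
      rw [inv_smul_eq_iff₀ h2, two_smul]
      abel
    rwa [e] at h
  have m34 : wd (E 3) (E 4) ∈ S' := by
    have h := S'.sub_mem p1 m12
    rwa [add_sub_cancel_left] at h
  have mall : ∀ i j : Fin 5, wd (E (F := F) i) (E j) ∈ S' :=
    all_pairs (fun i j => wd (E (F := F) i) (E j) ∈ S') (fun i => by rw [wd_self]; exact S'.zero_mem)
      (fun i j h => sw _ _ h) m10 m20 m30 m40 m12 m13 m14 m23 m24 m34
  have htop : S' = ⊤ := by
    have hs : Submodule.span F (Set.range (E (F := F))) = ⊤ := by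
      have h := (Pi.basisFun F (Fin 5)).span_eq
      have e : (⇑(Pi.basisFun F (Fin 5)) : Fin 5 → (Fin 5 → F)) = E (F := F) := by
        ext i j
        simp [E]
      rwa [e] at h
    rw [eq_top_iff, ← exteriorPower.ιMulti_span_of_span F 2 (Fin 5 → F) hs]
    apply Submodule.span_le.mpr
    rintro y ⟨v, hv, rfl⟩
    obtain ⟨i, hi⟩ := hv ⟨0, rfl⟩
    obtain ⟨j, hj⟩ := hv ⟨1, rfl⟩
    have e : v = ![E i, E j] := by
      ext k
      fin_cases k
      · exact congrFun hi.symm _
      · exact congrFun hj.symm _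
    rw [e]
    exact mall i j
  have : x ∈ S' := by rw [htop]; exact Submodule.mem_top
  exact this

/-- `w ↦ u ∧ w`. -/
noncomputable def wdR (u : Fin 5 → F) : (Fin 5 → F) →ₗ[F] ⋀[F]^2 (Fin 5 → F) where
  toFun := wd u
  map_add' := wd_add_right u
  map_smul' := fun a w => wd_smul_right a u w

/-- `w ↦ b u w`. -/
def bR (u : Fin 5 → F) : (Fin 5 → F) →ₗ[F] F where
  toFun := b u
  map_add' := fun w w' => by simp only [b, Pi.add_apply]; ring
  map_smul' := fun a w => by
    simp only [b, Pi.smul_apply, smul_eq_mul, RingHom.id_apply]; ring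

lemma wd_comb (u w : Fin 5 → F) (a a' c c' : F) :
    wd (a • u + a' • w) (c • u + c' • w) = (a * c' - a' * c) • wd u w := by
  rw [wd_add_left, wd_add_right, wd_add_right, wd_smul_left, wd_smul_right, wd_self,
    wd_smul_left, wd_smul_right, wd_smul_left, wd_smul_right, wd_swap u w, wd_smul_left,
    wd_smul_right, wd_self]
  module

lemma span_grass (h2 : (2 : F) ≠ 0) : Submodule.span F {x | ∃ u w : Fin 5 → F, q0 F u = 0 ∧
    q0 F w = 0 ∧ b u w = 0 ∧ x = wd u w} = ⊤ := by
  rw [eq_top_iff]
  intro x _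
  have h := contains_wedge (0 : F →+ F) h2 rfl ((Submodule.span F {x | ∃ u w : Fin 5 → F,
    q0 F u = 0 ∧ q0 F w = 0 ∧ b u w = 0 ∧ x = wd u w}).comap (LinearMap.fst F _ F)) (by
      intro u w hu hw hb
      rw [Submodule.mem_comap]
      exact Submodule.subset_span ⟨u, w, hu, hw, hb, rfl⟩) x
  exact h

/-- The data of the Grassmann embedding. -/
noncomputable def datG (h2 : (2 : F) ≠ 0) : Dat F (⋀[F]^2 (Fin 5 → F)) where
  ω := wd
  π := LinearMap.id
  T := wdR
  hπ := fun _ _ _ _ _ => rfl
  hω := fun u w _ _ _ a a' c c' => wd_comb u w a a' c c'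
  hT := fun _ _ _ _ => rfl
  hTπ := fun _ _ => rfl
  hspan := span_grass h2

section ext

variable (hD : ∀ x y, D (x * y) = x * D y + y * D x)

include hD

lemma D_one : D 1 = 0 := by
  have := hD 1 1
  simp only [one_mul] at this
  simpa using this

lemma D_two : D 2 = 0 := by
  have : (2 : F) = 1 + 1 := by norm_num
  rw [this, map_add, D_one D hD, add_zero]

lemma D_b (u w : Fin 5 → F) : D (b u w) = b (dl D u) w + b u (dl D w) := by
  simp only [b, dl, map_add, hD, D_two D hD]
  ring

lemma D_q (u : Fin 5 → F) : D (q0 F u) = b u (dl D u) := by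
  simp only [q0_apply, b, dl, map_add, hD]
  ring

lemma b_dl_smul (u w : Fin 5 → F) (c : F) :
    b u (dl D (c • w)) = c * b u (dl D w) + D c * b u w := by
  simp only [b, dl, Pi.smul_apply, smul_eq_mul, hD]
  ring

/-- The data of the extended embedding. -/
noncomputable def datX (h2 : (2 : F) ≠ 0) (t : F) (ht : D t ≠ 0) : Dat F (WW F) where
  ω := fun u w => (wd u w, b u (dl D w))
  π := LinearMap.fst F _ F
  T := fun u => (wdR u).prod (-(bR (dl D u)))
  hπ := fun _ _ _ _ _ => rfl
  hω := by
    intro u w hu hw hb a a' c c'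
    have h1 : b u (dl D u) = 0 := by rw [← D_q D hD, hu, map_zero]
    have h2 : b w (dl D w) = 0 := by rw [← D_q D hD, hw, map_zero]
    have h3 : b (dl D u) w + b u (dl D w) = 0 := by rw [← D_b D hD, hb, map_zero]
    have huu : b u u = 0 := by rw [b]; rw [q0_apply] at hu; linear_combination 2 * hu
    have hww : b w w = 0 := by rw [b]; rw [q0_apply] at hw; linear_combination 2 * hw
    refine Prod.ext (wd_comb u w a a' c c') ?_
    change b (a • u + a' • w) (dl D (c • u + c' • w)) = (a * c' - a' * c) * b u (dl D w)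
    have e1 : ∀ x y z : Fin 5 → F, b (a • x + a' • y) z = a * b x z + a' * b y z := by
      intro x y z
      simp only [b, Pi.add_apply, Pi.smul_apply, smul_eq_mul]
      ring
    have e2 : ∀ x y z : Fin 5 → F, b x (y + z) = b x y + b x z := by
      intro x y z
      simp only [b, Pi.add_apply]
      ring
    rw [e1, dl_add, e2, e2, b_dl_smul D hD, b_dl_smul D hD, b_dl_smul D hD, b_dl_smul D hD,
      h1, h2, huu, hww, hb, b_comm w u, hb, b_comm w (dl D u)]
    linear_combination (a' * c) * h3
  hT := by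
    intro u w hu hb
    have h3 : b (dl D u) w + b u (dl D w) = 0 := by rw [← D_b D hD, hb, map_zero]
    refine Prod.ext rfl ?_
    change b u (dl D w) = -(b (dl D u) w)
    linear_combination h3
  hTπ := fun _ _ => rfl
  hspan := by
    rw [eq_top_iff]
    rintro ⟨x, a⟩ -
    set S := Submodule.span F {x : WW F | ∃ u w, q0 F u = 0 ∧ q0 F w = 0 ∧ b u w = 0 ∧
      x = (wd u w, b u (dl D w))} with hS
    have hmem : ∀ u w : Fin 5 → F, q0 F u = 0 → q0 F w = 0 → b u w = 0 →
        ((wd u w, b u (dl D w)) : WW F) ∈ S := fun u w hu hw hb =>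
      Submodule.subset_span ⟨u, w, hu, hw, hb, rfl⟩
    have h0 := contains_wedge D h2 (D_one D hD) S hmem
    have h1 := hmem ![0, 1, 0, 0, t] ![0, 0, -t, 1, 0] (by simp [q0_apply]) (by simp [q0_apply])
      (by simp [b])
    have e : b ![0, 1, 0, 0, t] (dl D ![0, 0, -t, 1, 0]) = -D t := by
      simp [b, dl, D_one D hD]
    rw [e] at h1
    have h3 : ((0, -D t) : WW F) ∈ S := by
      have := S.sub_mem h1 (h0 (wd ![0, 1, 0, 0, t] ![0, 0, -t, 1, 0]))
      simpa using this
    have h4 : ((0, a) : WW F) ∈ S := by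
      have := S.smul_mem (-(a / D t)) h3
      have e2 : (-(a / D t)) • ((0, -D t) : WW F) = (0, a) := by
        refine Prod.ext (smul_zero _) ?_
        change -(a / D t) * (-D t) = a
        field_simp
      rwa [e2] at this
    have := S.add_mem (h0 x) h4
    simpa using this

end ext

end two

/-! ### A field with a nonzero derivation -/

section field

open Polynomial

/-- The rational function field. -/
abbrev K : Type := FractionRing ℚ[X]

/-- Polynomials to dual numbers over the rational function field, `f ↦ f + ε f'`. -/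
noncomputable def toDual : ℚ[X] →+* TrivSqZeroExt K K where
  toFun := fun f => (algebraMap ℚ[X] K f, algebraMap ℚ[X] K (derivative f))
  map_one' := by
    refine TrivSqZeroExt.ext ?_ ?_
    · exact map_one _
    · change algebraMap ℚ[X] K (derivative 1) = 0
      simp
  map_zero' := by
    refine TrivSqZeroExt.ext ?_ ?_
    · exact map_zero _
    · change algebraMap ℚ[X] K (derivative 0) = 0
      simp
  map_add' := by
    intro f g
    refine TrivSqZeroExt.ext ?_ ?_
    · exact map_add _ f g
    · change algebraMap ℚ[X] K (derivative (f + g)) =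
        algebraMap ℚ[X] K (derivative f) + algebraMap ℚ[X] K (derivative g)
      simp
  map_mul' := by
    intro f g
    refine TrivSqZeroExt.ext ?_ ?_
    · exact map_mul _ f g
    · change algebraMap ℚ[X] K (derivative (f * g)) =
        algebraMap ℚ[X] K f • algebraMap ℚ[X] K (derivative g) +
          MulOpposite.op (algebraMap ℚ[X] K g) • algebraMap ℚ[X] K (derivative f)
      rw [derivative_mul, map_add, map_mul, map_mul, smul_eq_mul, op_smul_eq_mul]
      ring

lemma toDual_unit (y : nonZeroDivisors ℚ[X]) : IsUnit (toDual y) := by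
  rw [TrivSqZeroExt.isUnit_iff_isUnit_fst]
  change IsUnit (algebraMap ℚ[X] K y)
  exact IsLocalization.map_units K y

/-- The extension to rational functions. -/
noncomputable def lft : K →+* TrivSqZeroExt K K :=
  IsLocalization.lift (M := nonZeroDivisors ℚ[X]) toDual_unit

lemma lft_poly (f : ℚ[X]) : lft (algebraMap ℚ[X] K f) = toDual f :=
  IsLocalization.lift_eq _ _

lemma fst_lft (x : K) : (lft x).fst = x := by
  have h : (TrivSqZeroExt.fstHom K K K).toRingHom.comp lft = RingHom.id K := by
    apply IsLocalization.ringHom_ext (nonZeroDivisors ℚ[X])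
    ext f
    · simp
    · simp only [RingHom.comp_apply]
      rw [lft_poly]
      rfl
  exact congrArg (fun g => g x) h

/-- The derivation of the rational function field. -/
noncomputable def der : K →+ K where
  toFun := fun x => (lft x).snd
  map_zero' := by simp
  map_add' := by simp

lemma der_mul (x y : K) : der (x * y) = x * der y + y * der x := by
  change (lft (x * y)).snd = x * (lft y).snd + y * (lft x).snd
  rw [map_mul, TrivSqZeroExt.snd_mul, fst_lft, fst_lft]
  simp [mul_comm]

lemma der_X : der (algebraMap ℚ[X] K X) ≠ 0 := by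
  change (lft (algebraMap ℚ[X] K X)).snd ≠ 0
  rw [lft_poly]
  change algebraMap ℚ[X] K (derivative X) ≠ 0
  simp

end field

/-- For some vector space `V` of dimension `5` over `F` and some non-singular quadratic form on
it of Witt index `2`, the Grassmann map is a veronesean embedding of the dual polar space which
is not relatively universal. -/
def RankTwoFails (F : Type) [Field F] : Prop :=
  ∃ (V : Type) (_ : AddCommGroup V) (_ : Module F V) (q : QuadraticForm F V),
    finrank F V = 2 * 2 + 1 ∧ (QuadraticMap.polarBilin q).Nondegenerate ∧ HasWittIndex q 2 ∧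
      ∃ e : VeroneseanEmbedding q 2 (Ext F V 2), (∀ Z, e.ε Z = grassmann q 2 Z) ∧
        ¬ RelativelyUniversal e

lemma fails (F : Type) [Field F] (h2 : (2 : F) ≠ 0) (D : F →+ F)
    (hD : ∀ x y, D (x * y) = x * D y + y * D x) (t : F) (ht : D t ≠ 0) : RankTwoFails F := by
  refine ⟨Fin 5 → F, inferInstance, inferInstance, q0 F, by simp, nondeg h2, ⟨?_, ?_⟩,
    (datG h2).emb h2, ?_, ?_⟩
  · obtain ⟨Z, hZ⟩ := exists_pt (F := F) (u := E 1) (w := E 3) (by simp [q0_apply, E])
      (by simp [q0_apply, E]) (by simp [b, E]) (by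
        intro h
        have := congrFun h 1
        simp [E] at this) (by
        intro h
        obtain ⟨c, hc⟩ := Submodule.mem_span_singleton.mp h
        have := congrFun hc 3
        simp [E] at this)
    exact ⟨Z.1, Z.2.1, Z.2.2⟩
  · exact totsing_le h2
  · intro Z
    change Submodule.span F _ = Submodule.span F _
    congr 1
    ext x
    constructor
    · rintro ⟨u, hu, w, hw, rfl⟩
      refine ⟨![u, w], ?_, rfl⟩
      intro i
      fin_cases i
      · exact hu
      · exact hw
    · rintro ⟨v, hv, rfl⟩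
      refine ⟨v 0, hv 0, v 1, hv 1, ?_⟩
      change _ = exteriorPower.ιMulti F 2 ![v 0, v 1]
      congr 1
      ext i
      fin_cases i <;> rfl
  · intro h
    let f : WW F →ₛₗ[((RingEquiv.refl F : F ≃+* F) : F →+* F)] (⋀[F]^2 (Fin 5 → F)) :=
      { toFun := Prod.fst
        map_add' := fun _ _ => rfl
        map_smul' := fun _ _ => rfl }
    have hb := h (WW F) ((datX D hD h2 t ht).emb h2) (RingEquiv.refl F) f (by
      intro p
      change Prod.fst '' ((Submodule.span F _ : Submodule F (WW F)) : Set (WW F)) =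
        ((Submodule.span F _ : Submodule F (⋀[F]^2 (Fin 5 → F))) : Set (⋀[F]^2 (Fin 5 → F)))
      have e1 : (Prod.fst '' ((Submodule.span F {x : WW F | ∃ u ∈ p.1, ∃ w ∈ p.1,
          x = (wd u w, b u (dl D w))} : Submodule F (WW F)) : Set (WW F))) =
          ((Submodule.map (LinearMap.fst F _ F) (Submodule.span F {x : WW F | ∃ u ∈ p.1,
            ∃ w ∈ p.1, x = (wd u w, b u (dl D w))})) : Set _) := rfl
      refine e1.trans ?_
      rw [Submodule.map_span]
      congr 2
      ext x
      constructor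
      · rintro ⟨y, ⟨u, hu, w, hw, rfl⟩, rfl⟩
        exact ⟨u, hu, w, hw, rfl⟩
      · rintro ⟨u, hu, w, hw, rfl⟩
        exact ⟨_, ⟨u, hu, w, hw, rfl⟩, rfl⟩)
    have h0 : f (0, 1) = f (0, 0) := rfl
    have := congrArg Prod.snd (hb.1 h0)
    exact one_ne_zero this

/-- **The Grassmann embedding is not always relatively universal.** -/
theorem result :
    (∀ (F : Type) [Field F] (D : Derivation ℤ F F), (2 : F) ≠ 0 → D ≠ 0 → RankTwoFails F) ∧
      ∃ (F : Type) (_ : Field F), CharZero F ∧ RankTwoFails F := by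
  refine ⟨?_, ?_⟩
  · intro F _ D h2 hD
    obtain ⟨t, ht⟩ : ∃ t, D t ≠ 0 := by
      by_contra hcon
      push Not at hcon
      exact hD (Derivation.ext hcon)
    exact fails F h2 D.toLinearMap.toAddMonoidHom (fun x y => D.leibniz x y) t ht
  · exact ⟨K, inferInstance, inferInstance, fails K two_ne_zero der der_mul _ der_X⟩

end Pool.Agent.Results.MP_4e2054_co.NotUniversal
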